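import Pool.Agent.H82.NET.Stmts

/-! # Row CRD of the board `net`: crossings of two ribbons

The horizontal edge of a before corner of the first element, seen from the node `(x.1, a.1.2)`, and
the vertical edge of a before corner of the second element, seen from the node `(w.1.1, y.1)`. -/

set_option autoImplicit false

namespace Pool.NET

private lemma crd_kx_upV (e l : ℤ) (u : Nd → Prop) (v : Nd) : kx e l (upV u v) = (v.1, e) := by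
  unfold upV
  split_ifs <;> rfl

private lemma crd_kx_dnV (e l : ℤ) (u : Nd → Prop) (v : Nd) : kx e l (dnV u v) = (v.1, -e) := by
  unfold dnV
  split_ifs <;> rfl

private lemma crd_ky_rNE (e : ℤ) (h : Nd → Prop) (v : Nd) : ky e (rNE h v) = (v.2, e) := by
  unfold rNE
  split_ifs <;> rfl

private lemma crd_ky_rSW (e : ℤ) (h : Nd → Prop) (v : Nd) : ky e (rSW h v) = (v.2, -e) := by
  unfold rSW
  split_ifs <;> rfl

/-- The horizontal edges. -/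
private lemma crd_hor (N : Set Nd) (h u : Nd → Prop) (e l : ℤ) (hN : HN N h) (he : 0 < e)
    (hl : e < l) (a : Nd × Kd) (ha : OK N h u a) (x : ℤ × ℤ)
    (hx : Bt (kx e l a) x (kx e l (nx h u a))) :
    (x.1, a.1.2) ∈ N ∧
      (((e ≤ x.2 ∨ x.2 ≤ -e) ∧ (oy e a.2 = e ∨ oy e a.2 = -e)) ∨
        (-e ≤ x.2 ∧ x.2 ≤ e ∧ oy e a.2 = 2 * e ∧ ¬ u (x.1, a.1.2)) ∨
        (-e ≤ x.2 ∧ x.2 ≤ e ∧ oy e a.2 = -(2 * e) ∧ ¬ u (x.1, a.1.2 - 1))) := by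
  obtain ⟨⟨c, r⟩, k⟩ := a
  obtain ⟨x1, x2⟩ := x
  cases k
  · -- NW
    have ha' : (c, r) ∈ N := ha
    by_cases hh : h (c - 1, r)
    · have e1 : nx h u ((c, r), Kd.NW) = upV u (c - 1, r) := by
        unfold nx
        exact if_pos hh
      rw [e1, crd_kx_upV] at hx
      simp only [Bt, LL, kx, ox] at hx
      have e2 : (x1 = c ∧ x2 ≤ -e) ∨ (x1 = c - 1 ∧ e ≤ x2) := by omega
      rcases e2 with ⟨rfl, e3⟩ | ⟨rfl, e3⟩
      · exact ⟨ha', Or.inl ⟨Or.inr e3, Or.inl rfl⟩⟩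
      · exact ⟨(hN _ hh).1, Or.inl ⟨Or.inl e3, Or.inl rfl⟩⟩
    · have e1 : nx h u ((c, r), Kd.NW) = ((c, r), Kd.L) := by
        unfold nx
        exact if_neg hh
      rw [e1] at hx
      simp only [Bt, LL, kx, ox] at hx
      have e2 : x1 = c ∧ x2 ≤ -e := by omega
      obtain ⟨rfl, e3⟩ := e2
      exact ⟨ha', Or.inl ⟨Or.inr e3, Or.inl rfl⟩⟩
  · -- SE
    have ha' : (c, r) ∈ N := ha
    by_cases hh : h (c, r)
    · have e1 : nx h u ((c, r), Kd.SE) = dnV u (c + 1, r) := by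
        unfold nx
        exact if_pos hh
      rw [e1, crd_kx_dnV] at hx
      simp only [Bt, LL, kx, ox] at hx
      have e2 : (x1 = c ∧ e ≤ x2) ∨ (x1 = c + 1 ∧ x2 ≤ -e) := by omega
      rcases e2 with ⟨rfl, e3⟩ | ⟨rfl, e3⟩
      · exact ⟨ha', Or.inl ⟨Or.inl e3, Or.inr rfl⟩⟩
      · exact ⟨(hN _ hh).2, Or.inl ⟨Or.inr e3, Or.inr rfl⟩⟩
    · have e1 : nx h u ((c, r), Kd.SE) = ((c, r), Kd.R) := by
        unfold nx
        exact if_neg hh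
      rw [e1] at hx
      simp only [Bt, LL, kx, ox] at hx
      have e2 : x1 = c ∧ e ≤ x2 := by omega
      obtain ⟨rfl, e3⟩ := e2
      exact ⟨ha', Or.inl ⟨Or.inl e3, Or.inr rfl⟩⟩
  · -- R
    have ha' : (c, r) ∈ N := ha.1
    have e1 : nx h u ((c, r), Kd.R) = upV u (c, r) := rfl
    rw [e1, crd_kx_upV] at hx
    simp only [Bt, LL, kx, ox] at hx
    have e2 : x1 = c ∧ e ≤ x2 := by omega
    obtain ⟨rfl, e3⟩ := e2
    exact ⟨ha', Or.inl ⟨Or.inl e3, Or.inl rfl⟩⟩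
  · -- T
    have ha' : (c, r) ∈ N := ha.1
    have ha2 : ¬ u (c, r) := ha.2
    have e1 : nx h u ((c, r), Kd.T) = ((c, r), Kd.NW) := rfl
    rw [e1] at hx
    simp only [Bt, LL, kx, ox] at hx
    have e2 : x1 = c ∧ -e ≤ x2 ∧ x2 ≤ e := by omega
    obtain ⟨rfl, e3, e4⟩ := e2
    exact ⟨ha', Or.inr (Or.inl ⟨e3, e4, rfl, ha2⟩)⟩
  · -- L
    have ha' : (c, r) ∈ N := ha.1
    have e1 : nx h u ((c, r), Kd.L) = dnV u (c, r) := rfl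
    rw [e1, crd_kx_dnV] at hx
    simp only [Bt, LL, kx, ox] at hx
    have e2 : x1 = c ∧ x2 ≤ -e := by omega
    obtain ⟨rfl, e3⟩ := e2
    exact ⟨ha', Or.inl ⟨Or.inr e3, Or.inr rfl⟩⟩
  · -- B
    have ha' : (c, r) ∈ N := ha.1
    have ha2 : ¬ u (c, r - 1) := ha.2
    have e1 : nx h u ((c, r), Kd.B) = ((c, r), Kd.SE) := rfl
    rw [e1] at hx
    simp only [Bt, LL, kx, ox] at hx
    have e2 : x1 = c ∧ -e ≤ x2 ∧ x2 ≤ e := by omega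
    obtain ⟨rfl, e3, e4⟩ := e2
    exact ⟨ha', Or.inr (Or.inr ⟨e3, e4, rfl, ha2⟩)⟩

/-- The vertical edges. -/
private lemma crd_ver (N : Set Nd) (h u : Nd → Prop) (e l : ℤ) (hU : UN N u) (he : 0 < e)
    (w : Nd × Kd) (hw : OK N h u w) (y : ℤ × ℤ)
    (hy : Bt (ky e w) y (ky e (pv h u w))) :
    (w.1.1, y.1) ∈ N ∧
      (((ox e l w.2 = e ∨ ox e l w.2 = -e) ∧
          ((e ≤ y.2 ∧ (¬ u (w.1.1, y.1) → y.2 ≤ 2 * e)) ∨
            (y.2 ≤ -e ∧ (¬ u (w.1.1, y.1 - 1) → -(2 * e) ≤ y.2)))) ∨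
        ((ox e l w.2 = l ∨ ox e l w.2 = -l) ∧ -e ≤ y.2 ∧ y.2 ≤ e)) := by
  obtain ⟨⟨c, r⟩, k⟩ := w
  obtain ⟨y1, y2⟩ := y
  cases k
  · -- NW
    have hw' : (c, r) ∈ N := hw
    by_cases hh : u (c, r)
    · have e1 : pv h u ((c, r), Kd.NW) = rSW h (c, r + 1) := by
        unfold pv
        exact if_pos hh
      rw [e1, crd_ky_rSW] at hy
      simp only [Bt, LL, ky, oy] at hy
      have e2 : (y1 = r ∧ e ≤ y2) ∨ (y1 = r + 1 ∧ y2 ≤ -e) := by omega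
      rcases e2 with ⟨rfl, e3⟩ | ⟨rfl, e3⟩
      · exact ⟨hw', Or.inl ⟨Or.inr rfl, Or.inl ⟨e3, fun h' => absurd hh h'⟩⟩⟩
      · refine ⟨(hU _ hh).1 hw', Or.inl ⟨Or.inr rfl, Or.inr ⟨e3, fun h' => absurd ?_ h'⟩⟩⟩
        have e4 : r + 1 - 1 = r := by ring
        show u (c, r + 1 - 1)
        rw [e4]
        exact hh
    · have e1 : pv h u ((c, r), Kd.NW) = ((c, r), Kd.T) := by
        unfold pv
        exact if_neg hh
      rw [e1] at hy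
      simp only [Bt, LL, ky, oy] at hy
      have e2 : y1 = r ∧ e ≤ y2 ∧ y2 ≤ 2 * e := by omega
      obtain ⟨rfl, e3, e4⟩ := e2
      exact ⟨hw', Or.inl ⟨Or.inr rfl, Or.inl ⟨e3, fun _ => e4⟩⟩⟩
  · -- SE
    have hw' : (c, r) ∈ N := hw
    by_cases hh : u (c, r - 1)
    · have e1 : pv h u ((c, r), Kd.SE) = rNE h (c, r - 1) := by
        unfold pv
        exact if_pos hh
      rw [e1, crd_ky_rNE] at hy
      simp only [Bt, LL, ky, oy] at hy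
      have e2 : (y1 = r ∧ y2 ≤ -e) ∨ (y1 = r - 1 ∧ e ≤ y2) := by omega
      rcases e2 with ⟨rfl, e3⟩ | ⟨rfl, e3⟩
      · exact ⟨hw', Or.inl ⟨Or.inl rfl, Or.inr ⟨e3, fun h' => absurd hh h'⟩⟩⟩
      · refine ⟨?_, Or.inl ⟨Or.inl rfl, Or.inl ⟨e3, fun h' => absurd hh h'⟩⟩⟩
        have e4 : r - 1 + 1 = r := by ring
        refine (hU _ hh).2 ?_
        show (c, r - 1 + 1) ∈ N
        rw [e4]
        exact hw'
    · have e1 : pv h u ((c, r), Kd.SE) = ((c, r), Kd.B) := by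
        unfold pv
        exact if_neg hh
      rw [e1] at hy
      simp only [Bt, LL, ky, oy] at hy
      have e2 : y1 = r ∧ y2 ≤ -e ∧ -(2 * e) ≤ y2 := by omega
      obtain ⟨rfl, e3, e4⟩ := e2
      exact ⟨hw', Or.inl ⟨Or.inl rfl, Or.inr ⟨e3, fun _ => e4⟩⟩⟩
  · -- R
    have hw' : (c, r) ∈ N := hw.1
    have e1 : pv h u ((c, r), Kd.R) = ((c, r), Kd.SE) := rfl
    rw [e1] at hy
    simp only [Bt, LL, ky, oy] at hy
    have e2 : y1 = r ∧ -e ≤ y2 ∧ y2 ≤ e := by omega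
    obtain ⟨rfl, e3, e4⟩ := e2
    exact ⟨hw', Or.inr ⟨Or.inl rfl, e3, e4⟩⟩
  · -- T
    have hw' : (c, r) ∈ N := hw.1
    have e1 : pv h u ((c, r), Kd.T) = rNE h (c, r) := rfl
    rw [e1, crd_ky_rNE] at hy
    simp only [Bt, LL, ky, oy] at hy
    have e2 : y1 = r ∧ e ≤ y2 ∧ y2 ≤ 2 * e := by omega
    obtain ⟨rfl, e3, e4⟩ := e2
    exact ⟨hw', Or.inl ⟨Or.inl rfl, Or.inl ⟨e3, fun _ => e4⟩⟩⟩
  · -- L
    have hw' : (c, r) ∈ N := hw.1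
    have e1 : pv h u ((c, r), Kd.L) = ((c, r), Kd.NW) := rfl
    rw [e1] at hy
    simp only [Bt, LL, ky, oy] at hy
    have e2 : y1 = r ∧ -e ≤ y2 ∧ y2 ≤ e := by omega
    obtain ⟨rfl, e3, e4⟩ := e2
    exact ⟨hw', Or.inr ⟨Or.inr rfl, e3, e4⟩⟩
  · -- B
    have hw' : (c, r) ∈ N := hw.1
    have e1 : pv h u ((c, r), Kd.B) = rSW h (c, r) := rfl
    rw [e1, crd_ky_rSW] at hy
    simp only [Bt, LL, ky, oy] at hy
    have e2 : y1 = r ∧ y2 ≤ -e ∧ -(2 * e) ≤ y2 := by omega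
    obtain ⟨rfl, e3, e4⟩ := e2
    exact ⟨hw', Or.inl ⟨Or.inr rfl, Or.inr ⟨e3, fun _ => e4⟩⟩⟩

theorem crd_thm : CRD_S := by
  intro N N' h h' u e l e' l' hN _ _ hU' he he' h1 h2 _ h4 h5 a w ha hw hx hy
  obtain ⟨g1, A⟩ := crd_hor N h u e l hN he h1 a ha (kx e' l' w) hx
  obtain ⟨g2, B⟩ := crd_ver N' h' u e' l' hU' he' w hw (ky e a) hy
  refine ⟨?_, (w.1.1, a.1.2), g1, g2⟩
  have A' : ((e ≤ ox e' l' w.2 ∨ ox e' l' w.2 ≤ -e) ∧ (oy e a.2 = e ∨ oy e a.2 = -e)) ∨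
      (-e ≤ ox e' l' w.2 ∧ ox e' l' w.2 ≤ e ∧ oy e a.2 = 2 * e ∧ ¬ u (w.1.1, a.1.2)) ∨
      (-e ≤ ox e' l' w.2 ∧ ox e' l' w.2 ≤ e ∧ oy e a.2 = -(2 * e) ∧ ¬ u (w.1.1, a.1.2 - 1)) := A
  have B' : ((ox e' l' w.2 = e' ∨ ox e' l' w.2 = -e') ∧
        ((e' ≤ oy e a.2 ∧ (¬ u (w.1.1, a.1.2) → oy e a.2 ≤ 2 * e')) ∨
          (oy e a.2 ≤ -e' ∧ (¬ u (w.1.1, a.1.2 - 1) → -(2 * e') ≤ oy e a.2)))) ∨
      ((ox e' l' w.2 = l' ∨ ox e' l' w.2 = -l') ∧ -e' ≤ oy e a.2 ∧ oy e a.2 ≤ e') := B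
  generalize ox e' l' w.2 = X at A' B'
  generalize oy e a.2 = Y at A' B'
  rcases A' with ⟨a1, a2⟩ | ⟨a1, a2, a3, a4⟩ | ⟨a1, a2, a3, a4⟩
  · rcases B' with ⟨b1, ⟨b2, _⟩ | ⟨b2, _⟩⟩ | ⟨b1, b2, b3⟩ <;> omega
  · rcases B' with ⟨b1, ⟨b2, b3⟩ | ⟨b2, _⟩⟩ | ⟨b1, b2, b3⟩
    · have b4 := b3 a4
      omega
    · omega
    · omega
  · rcases B' with ⟨b1, ⟨b2, _⟩ | ⟨b2, b3⟩⟩ | ⟨b1, b2, b3⟩
    · omega
    · have b4 := b3 a4
      omega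
    · omega

end Pool.NET
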